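import Pool.Agent.H77.GQ.Stm2

set_option autoImplicit false
set_option linter.all false

open MvPolynomial Module Pool.Agent.H77.TF Pool.Agent.H77.GR Pool.Agent.H77.GQ

namespace Pool.Agent.H23.GQ

theorem frk {K : Type} [Field K] {n : ℕ} {A : Fin n → Fin 3 → K} (hA : Simple A) {s i : Fin n} (h : s ≠ i) :
    finrank K (Submodule.span K {A s, A i}) = 2 := by
  have hli : LinearIndependent K ![A s, A i] := by
    rw [LinearIndependent.pair_iff' (hA.1 s)]
    intro c hc
    exact hA.2 i s h.symm c hc.symm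
  have h1 := finrank_span_eq_card hli
  have hr : Set.range ![A s, A i] = {A s, A i} := by
    ext x
    simp only [Set.mem_range, Fin.exists_fin_two, Matrix.cons_val_zero, Matrix.cons_val_one,
      Set.mem_insert_iff, Set.mem_singleton_iff, eq_comm]
  rw [hr, Fintype.card_fin] at h1
  exact h1

theorem eqs {K : Type} [Field K] {n : ℕ} {A : Fin n → Fin 3 → K} (hA : Simple A) {s i : Fin n} (h : s ≠ i)
    {W : Submodule K (Fin 3 → K)} (hW : finrank K W = 2) (hs : A s ∈ W) (hi : A i ∈ W) :
    Submodule.span K {A s, A i} = W := by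
  apply Submodule.eq_of_le_of_finrank_eq
  · rw [Submodule.span_le]
    rintro x (rfl | rfl)
    · exact hs
    · exact hi
  · rw [frk hA h, hW]

theorem crd {n : ℕ} (T : Finset (Fin n)) :
    (T.filter (fun s => ∃ i ∈ T, i < s)).card = T.card - 1 := by
  classical
  rcases T.eq_empty_or_nonempty with rfl | hT
  · simp
  · have : T.filter (fun s => ∃ i ∈ T, i < s) = T.erase (T.min' hT) := by
      ext s
      simp only [Finset.mem_filter, Finset.mem_erase]
      constructor
      · rintro ⟨hs, i, hi, his⟩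
        refine ⟨?_, hs⟩
        rintro rfl
        exact absurd (T.min'_le i hi) (not_le.2 his)
      · rintro ⟨hne, hs⟩
        exact ⟨hs, T.min' hT, T.min'_mem hT, lt_of_le_of_ne (T.min'_le s hs) (Ne.symm hne)⟩
    rw [this, Finset.card_erase_of_mem (T.min'_mem hT)]

theorem b2s : S_B2S := by
  intro K _ n A hA
  classical
  let P : Finset (Submodule K (Fin 3 → K)) :=
    ((Finset.univ : Finset (Fin n × Fin n)).filter (fun p => p.2 < p.1)).image
      (fun p => Submodule.span K {A p.1, A p.2})
  have hP : ∀ W, W ∈ P ↔ ∃ s i : Fin n, i < s ∧ Submodule.span K {A s, A i} = W := by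
    intro W
    simp only [P, Finset.mem_image, Finset.mem_filter, Finset.mem_univ, true_and, Prod.exists]
  have hP2 : ∀ W ∈ P, finrank K W = 2 := by
    intro W hW
    obtain ⟨s, i, hi, rfl⟩ := (hP W).1 hW
    exact frk hA hi.ne'
  have hn1 : ∀ s : Fin n, hn A s =
      (P.filter (fun W => A s ∈ W ∧ ∃ i, A i ∈ W ∧ i < s)).card := by
    intro s
    unfold hn
    rw [Nat.card_coe_set_eq, ← Set.ncard_coe_finset]
    congr 1
    ext W
    simp only [Set.mem_range, Finset.coe_filter, Set.mem_setOf_eq]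
    constructor
    · rintro ⟨i, rfl⟩
      have hlt : Fin.castLE s.2.le i < s := by
        rw [Fin.lt_def]
        exact i.2
      refine ⟨(hP _).2 ⟨s, Fin.castLE s.2.le i, hlt, rfl⟩, ?_, Fin.castLE s.2.le i, ?_, hlt⟩
      · exact Submodule.subset_span (by simp)
      · exact Submodule.subset_span (by simp)
    · rintro ⟨hW, hs, i, hi, his⟩
      refine ⟨⟨i, his⟩, ?_⟩
      exact eqs hA his.ne' (hP2 W hW) hs hi
  have hW1 : ∀ W : Submodule K (Fin 3 → K), Nat.card {i // A i ∈ W} - 1 =
      ((Finset.univ : Finset (Fin n)).filter (fun s => A s ∈ W ∧ ∃ i, A i ∈ W ∧ i < s)).card := by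
    intro W
    rw [Nat.card_eq_fintype_card, Fintype.card_subtype, ← crd, Finset.filter_filter]
    congr 1
    ext s
    simp
  have hsup : ({W : Submodule K (Fin 3 → K) | finrank K W = 2} ∩
      Function.support fun W : Submodule K (Fin 3 → K) => Nat.card {i // A i ∈ W} - 1) =
      (P : Set (Submodule K (Fin 3 → K))) ∩
      Function.support fun W : Submodule K (Fin 3 → K) => Nat.card {i // A i ∈ W} - 1 := by
    ext W
    simp only [Set.mem_inter_iff, Set.mem_setOf_eq, Finset.mem_coe, Function.mem_support]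
    constructor
    · rintro ⟨h2, h0⟩
      refine ⟨?_, h0⟩
      rw [hW1 W] at h0
      obtain ⟨s, hs⟩ := Finset.card_pos.1 (Nat.pos_of_ne_zero h0)
      simp only [Finset.mem_filter, Finset.mem_univ, true_and] at hs
      obtain ⟨hs, i, hi, his⟩ := hs
      exact (hP W).2 ⟨s, i, his, eqs hA his.ne' h2 hs hi⟩
    · rintro ⟨hW, h0⟩
      exact ⟨hP2 W hW, h0⟩
  rw [finsum_mem_eq_sum_of_inter_support_eq _ hsup]
  unfold b2
  have e1 : ∑ s, hn A s = ∑ s : Fin n,
      (Finset.bipartiteAbove (fun (s : Fin n) (W : Submodule K (Fin 3 → K)) =>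
        A s ∈ W ∧ ∃ i, A i ∈ W ∧ i < s) P s).card :=
    Finset.sum_congr rfl fun s _ => hn1 s
  rw [e1, Finset.sum_card_bipartiteAbove_eq_sum_card_bipartiteBelow]
  exact Finset.sum_congr rfl fun W _ => (hW1 W).symm

end Pool.Agent.H23.GQ
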