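import Pool.Agent.H77.GQ.Stm

/-!
# The module NUQ of the project GQ
-/

set_option autoImplicit false
set_option linter.all false

open MvPolynomial Module Pool.Agent.H77.TF Pool.Agent.H77.GR Pool.Agent.H77.GQ

namespace Pool.Agent.H23.GQ

lemma ch (k : ℕ) : 2 * (((k + 2).choose 2 : ℕ) : ℤ) = (k + 2) * (k + 1) := by
  have h := Nat.add_one_mul_choose_eq (k + 1) 1
  rw [Nat.choose_one_right] at h
  have h2 : ((k + 1 + 1 : ℕ) : ℤ) * ((k + 1 : ℕ) : ℤ) = (((k + 1 + 1).choose (1 + 1) : ℕ) : ℤ) * 2 := by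
    exact_mod_cast h
  push_cast at h2
  have e : (k + 2).choose 2 = (k + 1 + 1).choose (1 + 1) := rfl
  rw [e]
  linarith

lemma ch' {m e : ℕ} (h : e ≤ m) : 2 * (((m - e + 2).choose 2 : ℕ) : ℤ) =
    ((m : ℤ) - e + 2) * (m - e + 1) := by
  rw [ch, Nat.cast_sub h]

theorem nuq (hDMF : S_DMF) (hDME : S_DME) : S_NUQ := by
  intro K _ n A a b hA hE
  set S : ℤ := ∑ s : Fin n, ((s : ℕ) - hn A s : ℤ) with hS
  have key : ∀ m : ℕ, n + a + b + 1 ≤ m → 3 * (((m : ℤ) + 2) * (m + 1)) - 2 * (n * ((m : ℤ) + 1)) +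
      2 * S = (m + 1) * m + ((m : ℤ) - a + 2) * (m - a + 1) + ((m : ℤ) - b + 2) * (m - b + 1) := by
    intro m hm
    have h1 := hDMF K n A hA m (by omega)
    have h2 := hDME K (Fin n) A ![1, a, b] hE m (by
      intro j
      fin_cases j
      · show 1 ≤ m
        omega
      · show a ≤ m
        omega
      · show b ≤ m
        omega)
    rw [h2, Fin.sum_univ_three] at h1
    have c0 : ((![1, a, b] : Fin 3 → ℕ) 0) = 1 := rfl
    have c1 : ((![1, a, b] : Fin 3 → ℕ) 1) = a := rfl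
    have c2 : ((![1, a, b] : Fin 3 → ℕ) 2) = b := rfl
    rw [c0, c1, c2] at h1
    have d0 := ch' (show 1 ≤ m by omega)
    have d1 := ch' (show a ≤ m by omega)
    have d2 := ch' (show b ≤ m by omega)
    have d3 := ch m
    push_cast at h1 d0 d1 d2 d3
    have e0 : ((m : ℤ) - 1 + 2) * (m - 1 + 1) = (m + 1) * m := by ring
    rw [e0] at d0
    rw [← hS] at h1
    linarith
  have k1 := key (n + a + b + 1) le_rfl
  have k2 := key (n + a + b + 1 + 1) (by omega)
  have hn' : (n : ℤ) = 1 + a + b := by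
    push_cast at k1 k2
    linarith
  refine ⟨by exact_mod_cast hn', ?_⟩
  push_cast at k1
  rw [hn'] at k1
  linarith

end Pool.Agent.H23.GQ
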